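import Mathlib

/-!
Regular multigraphs, the spectral radius and unimodular random rooted graphs.
-/

set_option autoImplicit false

open MeasureTheory Filter Topology
open scoped ENNReal

namespace Pool.Agent.R766.UG

/-- `a` is the matrix of multiplicities of a connected `d`-regular graph on `V`, which may have
loops and multiple edges; a loop counts once towards the degree. -/
structure IsRegularGraph {V : Type} (d : ℕ) (a : V → V → ℕ) : Prop where
  symm : ∀ x y, a x y = a y x
  regular : ∀ x, ∑' y, (a x y : ℝ≥0∞) = d
  connected : ∀ x y, Relation.ReflTransGen (fun u v => 0 < a u v) x y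

open Classical in
/-- The `n`-step transition probabilities of the simple random walk: the probability to move from
`x` to `y` in one step is `a x y / d`. -/
noncomputable def prob {V : Type} (d : ℕ) (a : V → V → ℕ) : ℕ → V → V → ℝ≥0∞
  | 0, x, y => if x = y then 1 else 0
  | n + 1, x, y => ∑' z, (a x z : ℝ≥0∞) / d * prob d a n z y

/-- The spectral radius, computed at `o`. -/
noncomputable def specRad {V : Type} (d : ℕ) (a : V → V → ℕ) (o : V) : ℝ≥0∞ :=
  limsup (fun n : ℕ => prob d a (2 * n) o o ^ (1 / (2 * n : ℝ))) atTop

/-- The random rooted graph `(a, o)` on the vertex set `V` is a unimodular random `d`-regular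
graph: all samples are connected and `d`-regular and the mass transport principle holds for every
nonnegative measurable function `f` of a graph and two vertices that is invariant under
isomorphisms. -/
structure IsUnimodular {V Ω : Type} {_ : MeasurableSpace Ω} (d : ℕ) (P : Measure Ω)
    (a : Ω → V → V → ℕ) (o : Ω → V) : Prop where
  prob : IsProbabilityMeasure P
  meas_graph : ∀ x y, Measurable fun ω => a ω x y
  meas_root : ∀ x, MeasurableSet {ω | o ω = x}
  graph : ∀ ω, IsRegularGraph d (a ω)
  mtp : ∀ f : (V → V → ℕ) → V → V → ℝ≥0∞, (∀ x y, Measurable fun b => f b x y) →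
    (∀ (σ : Equiv.Perm V) (b : V → V → ℕ) (x y : V),
      f (fun u v => b (σ u) (σ v)) x y = f b (σ x) (σ y)) →
    ∫⁻ ω, ∑' x, f (a ω) (o ω) x ∂P = ∫⁻ ω, ∑' x, f (a ω) x (o ω) ∂P

end Pool.Agent.R766.UG
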