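import Pool.Agent.R766.UG.Defs

/-!
Graphs given by ports, and an upper bound for the spectral radius by a positive function.
-/

set_option autoImplicit false

open MeasureTheory Filter Topology Finset
open scoped ENNReal

namespace Pool.Agent.R766.UG

section Ports

variable {V : Type} {d : ℕ} (nb : V → Fin d → V) (rev : V → Fin d → Fin d)

open Classical in
/-- The number of ports from `v` to `w`. -/
noncomputable def mult (v w : V) : ℕ := #{k : Fin d | nb v k = w}

theorem mult_symm (h1 : ∀ v k, nb (nb v k) (rev v k) = v) (h2 : ∀ v k, rev (nb v k) (rev v k) = k)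
    (v w : V) : mult nb v w = mult nb w v := by
  classical
  unfold mult
  refine card_bij' (fun k _ => rev v k) (fun k _ => rev w k) ?_ ?_ ?_ ?_
  · intro k hk
    rw [mem_filter] at hk ⊢
    refine ⟨mem_univ _, ?_⟩
    rw [← hk.2, h1]
  · intro k hk
    rw [mem_filter] at hk ⊢
    refine ⟨mem_univ _, ?_⟩
    rw [← hk.2, h1]
  · intro k hk
    rw [mem_filter] at hk
    have := h2 v k
    rw [hk.2] at this
    exact this
  · intro k hk
    rw [mem_filter] at hk
    have := h2 w k
    rw [hk.2] at this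
    exact this

theorem tsum_mult (F : V → ℝ≥0∞) (v : V) :
    ∑' w, (mult nb v w : ℝ≥0∞) * F w = ∑ k, F (nb v k) := by
  classical
  have h1 : ∀ w, (mult nb v w : ℝ≥0∞) * F w = ∑ k : Fin d, if w = nb v k then F w else 0 := by
    intro w
    unfold mult
    rw [card_filter]
    push_cast
    rw [sum_mul]
    refine sum_congr rfl fun k _ => ?_
    by_cases h : nb v k = w
    · simp [h]
    · simp [h, Ne.symm h]
  simp only [h1]
  rw [Summable.tsum_finsetSum fun k _ => ENNReal.summable]
  refine sum_congr rfl fun k _ => ?_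
  rw [tsum_ite_eq]

theorem mult_pos {v w : V} {k : Fin d} (h : nb v k = w) : 0 < mult nb v w := by
  classical
  unfold mult
  rw [card_pos]
  exact ⟨k, by simp [h]⟩

end Ports

section Bound

variable {V : Type} {d : ℕ} {a : V → V → ℕ}

theorem prob_mul_le (hd : d ≠ 0) {F : V → ℝ≥0∞} {c : ℝ≥0∞}
    (h : ∀ v, ∑' w, (a v w : ℝ≥0∞) * F w ≤ c * d * F v) (n : ℕ) (x y : V) :
    prob d a n x y * F y ≤ c ^ n * F x := by
  induction n generalizing x with
  | zero =>
    unfold prob
    by_cases h : x = y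
    · simp [h]
    · simp [h]
  | succ n ih =>
    unfold prob
    rw [← ENNReal.tsum_mul_right]
    have hd0 : (d : ℝ≥0∞) ≠ 0 := by exact_mod_cast hd
    calc ∑' z, (a x z : ℝ≥0∞) / d * prob d a n z y * F y
        ≤ ∑' z, c ^ n / d * ((a x z : ℝ≥0∞) * F z) := by
          refine ENNReal.tsum_le_tsum fun z => ?_
          calc (a x z : ℝ≥0∞) / d * prob d a n z y * F y
              = (a x z : ℝ≥0∞) / d * (prob d a n z y * F y) := by rw [mul_assoc]
            _ ≤ (a x z : ℝ≥0∞) / d * (c ^ n * F z) := mul_le_mul' le_rfl (ih z)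
            _ = c ^ n / d * ((a x z : ℝ≥0∞) * F z) := by
                rw [ENNReal.div_eq_inv_mul, ENNReal.div_eq_inv_mul]; ring
      _ = c ^ n / d * ∑' z, (a x z : ℝ≥0∞) * F z := ENNReal.tsum_mul_left
      _ ≤ c ^ n / d * (c * d * F x) := by gcongr; exact h x
      _ = c ^ (n + 1) * F x := by
          rw [ENNReal.div_eq_inv_mul]
          calc (d : ℝ≥0∞)⁻¹ * c ^ n * (c * d * F x) = ((d : ℝ≥0∞)⁻¹ * d) * (c ^ n * c * F x) := by
                ring
            _ = _ := by
                rw [ENNReal.inv_mul_cancel hd0 (ENNReal.natCast_ne_top d), one_mul, pow_succ]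

theorem specRad_le (hd : d ≠ 0) {F : V → ℝ≥0∞} {c : ℝ≥0∞} (o : V) (h0 : F o ≠ 0) (ht : F o ≠ ∞)
    (h : ∀ v, ∑' w, (a v w : ℝ≥0∞) * F w ≤ c * d * F v) : specRad d a o ≤ c := by
  unfold specRad
  refine limsup_le_of_le (by isBoundedDefault) ?_
  filter_upwards [eventually_ge_atTop 1] with n hn
  have h1 : prob d a (2 * n) o o ≤ c ^ (2 * n) := by
    have h2 := prob_mul_le hd h (2 * n) o o
    exact (ENNReal.mul_le_mul_iff_left h0 ht).1 h2
  have hn' : (0 : ℝ) < 2 * n := by
    have : (1 : ℝ) ≤ n := by exact_mod_cast hn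
    linarith
  calc prob d a (2 * n) o o ^ (1 / (2 * n : ℝ)) ≤ (c ^ (2 * n)) ^ (1 / (2 * n : ℝ)) :=
        ENNReal.rpow_le_rpow h1 (by positivity)
    _ = c := by
        rw [← ENNReal.rpow_natCast, ← ENNReal.rpow_mul]
        push_cast
        rw [mul_one_div_cancel hn'.ne', ENNReal.rpow_one]

end Bound

end Pool.Agent.R766.UG
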