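import Mathlib

/-!
The free product of groups of order two indexed by a type `I`, and the list of the letters of a
reduced word.
-/

set_option autoImplicit false

open Monoid

namespace Pool.Agent.R766.UG

/-- The free product of groups of order two. -/
abbrev Gam (I : Type) : Type := CoprodI (fun _ : I => Multiplicative (ZMod 2))

variable {I : Type}

/-- The generators. -/
def sg (i : I) : Gam I := CoprodI.of (i := i) (Multiplicative.ofAdd (1 : ZMod 2))

theorem sg_mul_self (i : I) : sg i * sg i = 1 := by
  unfold sg
  rw [← map_mul, ← ofAdd_add]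
  have : (1 : ZMod 2) + 1 = 0 := by decide
  rw [this, ofAdd_zero, map_one]

theorem sg_mul_sg_mul (i : I) (g : Gam I) : sg i * (sg i * g) = g := by
  rw [← mul_assoc, sg_mul_self, one_mul]

section

open Classical in
/-- The reduced word of an element. -/
noncomputable def wd (g : Gam I) : CoprodI.Word (fun _ : I => Multiplicative (ZMod 2)) :=
  g • CoprodI.Word.empty

/-- The letters of the reduced word of an element. -/
noncomputable def letters (g : Gam I) : List I := (wd g).toList.map Sigma.fst

theorem letters_one : letters (1 : Gam I) = [] := by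
  unfold letters wd
  rw [one_smul]
  rfl

theorem ofAdd_one_ne : (Multiplicative.ofAdd (1 : ZMod 2)) ≠ 1 := by decide

theorem eq_ofAdd_one {m : Multiplicative (ZMod 2)} (h : m ≠ 1) : m = Multiplicative.ofAdd 1 := by
  revert m
  decide

theorem wd_mul (i : I) (g : Gam I) (h : (wd g).fstIdx ≠ some i) :
    wd (sg i * g) = CoprodI.Word.cons (M := fun _ : I => Multiplicative (ZMod 2)) (i := i)
      (Multiplicative.ofAdd (1 : ZMod 2)) (wd g) h ofAdd_one_ne := by
  classical
  rw [CoprodI.Word.cons_eq_smul]
  unfold wd sg
  rw [mul_smul]

theorem fstIdx_eq (g : Gam I) : (wd g).fstIdx = (letters g).head? := by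
  unfold letters CoprodI.Word.fstIdx
  rw [List.head?_map]

theorem letters_cons (i : I) (g : Gam I) (h : (letters g).head? ≠ some i) :
    letters (sg i * g) = i :: letters g := by
  have h' : (wd g).fstIdx ≠ some i := by rwa [fstIdx_eq]
  unfold letters
  rw [wd_mul i g h']
  rfl

theorem letters_tail (i : I) (g : Gam I) (t : List I) (h : letters g = i :: t) :
    letters (sg i * g) = t := by
  classical
  -- write the word as a cons
  have key : ∀ w : CoprodI.Word (fun _ : I => Multiplicative (ZMod 2)),
      w.toList.map Sigma.fst = i :: t → ∃ (w' : CoprodI.Word (fun _ : I => Multiplicative (ZMod 2)))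
        (h1 : w'.fstIdx ≠ some i),
        w = CoprodI.Word.cons (M := fun _ : I => Multiplicative (ZMod 2)) (i := i)
          (Multiplicative.ofAdd (1 : ZMod 2)) w' h1 ofAdd_one_ne ∧
          w'.toList.map Sigma.fst = t := by
    intro w
    induction w using CoprodI.Word.consRecOn with
    | empty => intro h; simp [CoprodI.Word.empty] at h
    | cons j m w' h1 h2 _ =>
      intro h
      rw [CoprodI.Word.cons_toList, List.map_cons, List.cons.injEq] at h
      obtain ⟨rfl, ht⟩ := h
      obtain rfl := eq_ofAdd_one h2
      exact ⟨w', h1, rfl, ht⟩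
  obtain ⟨w', h1, h2, h3⟩ := key (wd g) h
  rw [CoprodI.Word.cons_eq_smul] at h2
  unfold letters
  have h4 : wd (sg i * g) = w' := by
    have h5 : wd (sg i * g) = sg i • wd g := by unfold wd; rw [mul_smul]
    rw [h5, h2]
    show sg i • sg i • w' = w'
    rw [← mul_smul, sg_mul_self, one_smul]
  rw [h4, h3]

theorem gam_induction {p : Gam I → Prop} (h1 : p 1) (h2 : ∀ i g, p g → p (sg i * g)) (g : Gam I) :
    p g := by
  induction g using CoprodI.induction_left with
  | one => exact h1
  | mul m x ih =>
    by_cases hm : m = 1
    · rw [hm, map_one, one_mul]; exact ih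
    · rw [eq_ofAdd_one hm]
      exact h2 _ _ ih

instance [Countable I] : Countable (Gam I) := by
  classical
  have : Countable (CoprodI.Word (fun _ : I => Multiplicative (ZMod 2))) :=
    Function.Injective.countable (f := CoprodI.Word.toList) fun a b h => CoprodI.Word.ext h
  exact (CoprodI.Word.equiv (M := fun _ : I => Multiplicative (ZMod 2))).countable_iff.2 this

instance [Nontrivial I] : Infinite (Gam I) := by
  by_contra hfin
  rw [not_infinite_iff_finite] at hfin
  obtain ⟨g, hg⟩ := Finite.exists_max fun g : Gam I => (letters g).length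
  obtain ⟨i, hi⟩ : ∃ i, (letters g).head? ≠ some i := by
    obtain ⟨a, b, hab⟩ := exists_pair_ne I
    by_cases h : (letters g).head? = some a
    · exact ⟨b, fun h' => hab (Option.some_injective _ (h.symm.trans h'))⟩
    · exact ⟨a, h⟩
  have := hg (sg i * g)
  rw [letters_cons i g hi, List.length_cons] at this
  omega

end

end Pool.Agent.R766.UG
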