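import Pool.Agent.R766.UG.Tree

/-!
A positive function on the tree of balls that bounds the spectral radius.
-/

set_option autoImplicit false

open MeasureTheory Filter Topology Finset
open scoped ENNReal

namespace Pool.Agent.R766.UG

section Scalars

variable (m R : ℕ)

/-- `1 / √m` -/
noncomputable def be : ℝ := (√(m : ℝ))⁻¹

/-- The ratio for a step from level `k + 1` up to level `k`. -/
noncomputable def uu (k : ℕ) : ℝ := (1 + 1 / ((m : ℝ) ^ k + 1)) * be m

/-- Products of ratios. -/
noncomputable def UU (k : ℕ) : ℝ := ∏ i ∈ Ico k R, uu m i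

/-- The bound. -/
noncomputable def lam : ℝ := 2 * √(m : ℝ) + be m / ((m : ℝ) ^ (R - 1) + 1)

variable {m R}

theorem be_pos (hm : 2 ≤ m) : 0 < be m := by
  have : (0 : ℝ) < m := by exact_mod_cast (show 0 < m by omega)
  exact inv_pos.2 (Real.sqrt_pos.2 this)

theorem be_mul (hm : 2 ≤ m) : be m * √(m : ℝ) = 1 := by
  have : (0 : ℝ) < m := by exact_mod_cast (show 0 < m by omega)
  exact inv_mul_cancel₀ (Real.sqrt_pos.2 this).ne'

theorem m_mul_be (hm : 2 ≤ m) : (m : ℝ) * be m = √(m : ℝ) := by
  have h0 : (0 : ℝ) ≤ m := Nat.cast_nonneg m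
  calc (m : ℝ) * be m = (√(m : ℝ) * √(m : ℝ)) * be m := by rw [Real.mul_self_sqrt h0]
    _ = √(m : ℝ) * (be m * √(m : ℝ)) := by ring
    _ = √(m : ℝ) := by rw [be_mul hm, mul_one]

theorem one_le_sqrt (hm : 2 ≤ m) : 1 ≤ √(m : ℝ) := by
  rw [Real.one_le_sqrt]
  exact_mod_cast (show 1 ≤ m by omega)

theorem uu_pos (hm : 2 ≤ m) (k : ℕ) : 0 < uu m k := by
  unfold uu
  have := be_pos hm
  positivity

theorem UU_pos (hm : 2 ≤ m) (k : ℕ) : 0 < UU m R k := prod_pos fun i _ => uu_pos hm i

theorem UU_self : UU m R R = 1 := by simp [UU]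

theorem UU_succ {k : ℕ} (hk : k < R) : UU m R k = uu m k * UU m R (k + 1) := by
  unfold UU
  rw [prod_eq_prod_Ico_succ_bot hk]

/-- At the centre. -/
theorem scal_centre (hm : 2 ≤ m) : 1 + (uu m 0)⁻¹ + ((m : ℝ) - 1) * be m ≤ 2 * √(m : ℝ) := by
  set b := √(m : ℝ) with hb
  have hb0 : 0 < b := by linarith [one_le_sqrt hm]
  have h1 : be m = b⁻¹ := rfl
  have h2 : (m : ℝ) = b * b := by rw [hb, Real.mul_self_sqrt (Nat.cast_nonneg m)]
  unfold uu
  rw [h1, h2]
  have h3 : ((1 + 1 / ((b * b) ^ 0 + 1)) * b⁻¹)⁻¹ = 2 * b / 3 := by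
    rw [pow_zero]; field_simp; norm_num
  rw [h3]
  have h4 : (b * b - 1) * b⁻¹ = b - b⁻¹ := by field_simp
  rw [h4]
  have h5 : b * b⁻¹ = 1 := mul_inv_cancel₀ hb0.ne'
  have h6 : 0 < b⁻¹ := inv_pos.2 hb0
  -- `1 ≤ b / 3 + b⁻¹`
  nlinarith [sq_nonneg (b - 3 * b⁻¹), sq_nonneg (b / 3 + b⁻¹)]

/-- At the levels between the centre and the leaves. -/
theorem scal_mid (hm : 2 ≤ m) (k : ℕ) :
    uu m k + (uu m (k + 1))⁻¹ + ((m : ℝ) - 1) * be m ≤ 2 * √(m : ℝ) := by
  set b := √(m : ℝ) with hb
  have hb0 : 0 < b := by linarith [one_le_sqrt hm]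
  have h1 : be m = b⁻¹ := rfl
  have h2 : (m : ℝ) = b * b := by rw [hb, Real.mul_self_sqrt (Nat.cast_nonneg m)]
  have hm' : (2 : ℝ) ≤ m := by exact_mod_cast hm
  unfold uu
  rw [h1]
  set y : ℝ := (m : ℝ) ^ k with hy
  have hy1 : 1 ≤ y := one_le_pow₀ (by linarith)
  have hy2 : (m : ℝ) ^ (k + 1) = m * y := by rw [pow_succ]; ring
  rw [hy2]
  have h3 : ((1 + 1 / ((m : ℝ) * y + 1)) * b⁻¹)⁻¹ = b - b / (m * y + 2) := by
    field_simp
    ring
  have h4 : ((m : ℝ) - 1) * b⁻¹ = b - b⁻¹ := by rw [h2]; field_simp
  rw [h3, h4]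
  have h5 : 1 / (y + 1) * b⁻¹ ≤ b / (m * y + 2) := by
    rw [one_div, ← mul_inv, ← one_div, div_le_div_iff₀ (by positivity) (by positivity)]
    have : b * ((y + 1) * b) = m * (y + 1) := by rw [h2]; ring
    rw [this]
    nlinarith
  nlinarith [h5]

end Scalars

section Function

variable {m R : ℕ}

open Classical in
/-- The weight of the path from the leaf `l` to the vertex `x` of the ball. -/
noncomputable def WW (m R : ℕ) (l : List (Fin m)) : List (Fin m) → ℝ
  | [] => UU m R 0
  | j :: x => if (j :: x) <:+ l then UU m R (x.length + 1) else WW m R l x * be m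

theorem WW_suffix {l x : List (Fin m)} (h : x <:+ l) : WW m R l x = UU m R x.length := by
  classical
  rcases x with _ | ⟨j, x⟩
  · rfl
  · unfold WW
    rw [if_pos h, List.length_cons]

theorem WW_not {l x : List (Fin m)} {j : Fin m} (h : ¬ (j :: x) <:+ l) :
    WW m R l (j :: x) = WW m R l x * be m := by
  classical
  rw [WW, if_neg h]

theorem WW_pos (hm : 2 ≤ m) (l x : List (Fin m)) : 0 < WW m R l x := by
  classical
  induction x with
  | nil => exact UU_pos hm 0
  | cons j x ih =>
    unfold WW
    split_ifs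
    · exact UU_pos hm _
    · exact mul_pos ih (be_pos hm)

/-- The function in terms of the reduced word. -/
noncomputable def Fl (m R : ℕ) : List (Idx m R) → List (Fin m) → ℝ
  | [], x => be m ^ x.length
  | i :: t, x => Fl m R t i.1.1 * be m * WW m R i.1.1 x

theorem Fl_pos (hm : 2 ≤ m) (L : List (Idx m R)) (x : List (Fin m)) : 0 < Fl m R L x := by
  induction L generalizing x with
  | nil => exact pow_pos (be_pos hm) _
  | cons i t ih => exact mul_pos (mul_pos (ih _) (be_pos hm)) (WW_pos hm _ _)

/-- The function on the vertices. -/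
noncomputable def FF (v : Vt m R) : ℝ := Fl m R (letters v.1) v.2.1

theorem FF_pos (hm : 2 ≤ m) (v : Vt m R) : 0 < FF v := Fl_pos hm _ _

/-- Crossing an external edge away from the base. -/
theorem FF_out {g : Gam (Idx m R)} {x : Ball m R} (h : x.1.length = R) (j : Fin m)
    (hne : (letters g).head? ≠ some (⟨x.1, h⟩, j)) :
    FF ((sg (⟨x.1, h⟩, j) * g, x) : Vt m R) = FF (g, x) * be m := by
  unfold FF
  show Fl m R (letters (sg (⟨x.1, h⟩, j) * g)) x.1 = _
  rw [letters_cons _ _ hne, Fl, WW_suffix (List.suffix_refl _), h, UU_self, mul_one]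

/-- Crossing an external edge back. -/
theorem FF_back {g : Gam (Idx m R)} {x : Ball m R} (h : x.1.length = R) (j : Fin m)
    (t : List (Idx m R)) (ht : letters g = (⟨x.1, h⟩, j) :: t) :
    FF (g, x) = FF ((sg (⟨x.1, h⟩, j) * g, x) : Vt m R) * be m := by
  unfold FF
  show Fl m R (letters g) x.1 = Fl m R (letters (sg (⟨x.1, h⟩, j) * g)) x.1 * be m
  rw [letters_tail _ _ t ht, ht, Fl, WW_suffix (List.suffix_refl _), h, UU_self, mul_one]

/-- The child in the direction of `l`. -/
theorem exists_child {l x : List (Fin m)} (h : x <:+ l) (hlt : x.length < l.length) :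
    ∃ j, ∀ i, (i :: x) <:+ l ↔ i = j := by
  obtain ⟨p, rfl⟩ := h
  have hp : p ≠ [] := by
    rintro rfl
    simp at hlt
  obtain ⟨q, j, rfl⟩ : ∃ q j, p = q ++ [j] := ⟨_, _, (List.dropLast_append_getLast hp).symm⟩
  refine ⟨j, fun i => ⟨fun h => ?_, ?_⟩⟩
  · have h1 : (j :: x) <:+ q ++ [j] ++ x := ⟨q, by simp⟩
    have h2 : (i :: x) <:+ (j :: x) := List.suffix_of_suffix_length_le h h1 (by simp)
    have h3 := h2.eq_of_length (by simp)
    rw [List.cons.injEq] at h3
    exact h3.1
  · rintro rfl
    exact ⟨q, by simp⟩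

theorem sum_children (l x : List (Fin m)) (h : x <:+ l) (hlt : x.length < l.length) :
    ∑ j, WW m R l (j :: x) = UU m R (x.length + 1) + ((m : ℝ) - 1) * (UU m R x.length * be m) := by
  classical
  obtain ⟨j, hj⟩ := exists_child h hlt
  rw [← add_sum_erase univ _ (mem_univ j), WW_suffix ((hj j).2 rfl), List.length_cons]
  congr 1
  rw [sum_congr rfl fun i hi => by
    rw [WW_not (fun h' => (ne_of_mem_erase hi) ((hj i).1 h')), WW_suffix h], sum_const,
    card_erase_of_mem (mem_univ j), card_univ, Fintype.card_fin, nsmul_eq_mul]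
  have : 1 ≤ m := Fin.pos j
  push_cast [Nat.cast_sub this]
  ring

/-- The function is a supersolution. -/
theorem FF_super (hm : 2 ≤ m) (hR : 1 ≤ R) (v : Vt m R) :
    ∑ k, FF (nb v k) ≤ lam m R * FF v := by
  classical
  obtain ⟨g, x⟩ := v
  have hb0 : 0 < √(m : ℝ) := by linarith [one_le_sqrt hm]
  have hbe := be_pos hm
  have hlam : 2 * √(m : ℝ) ≤ lam m R := by
    unfold lam
    have : 0 ≤ be m / ((m : ℝ) ^ (R - 1) + 1) := by positivity
    linarith
  have hF := FF_pos hm (g, x)
  suffices h : ∑ k, FF (nb (g, x) k) ≤ 2 * √(m : ℝ) * FF (g, x) ∨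
      ∑ k, FF (nb (g, x) k) ≤ lam m R * FF (g, x) by
    rcases h with h | h
    · exact h.trans (mul_le_mul_of_nonneg_right hlam hF.le)
    · exact h
  rw [Fin.sum_univ_succ]
  have hx := x.2
  -- the sum over the ports other than the first, if all of them lead away from the base
  have hout : ∀ (hl : x.1.length = R), (∀ j, (letters g).head? ≠ some (⟨x.1, hl⟩, j)) →
      ∑ j : Fin m, FF (nb (g, x) j.succ) = √(m : ℝ) * FF (g, x) := by
    intro hl h
    rw [sum_congr rfl fun j _ => by rw [nb_succ_of_eq g x j hl, FF_out hl j (h j)], sum_const,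
      card_univ, Fintype.card_fin, nsmul_eq_mul, ← m_mul_be hm]
    ring
  rcases hL : letters g with _ | ⟨i, t⟩
  · -- the base ball
    have hFb : ∀ y : Ball m R, FF ((g, y) : Vt m R) = be m ^ y.1.length := by
      intro y
      unfold FF
      rw [hL, Fl]
    have hsum : ∑ j : Fin m, FF (nb (g, x) j.succ) = √(m : ℝ) * FF (g, x) := by
      rcases lt_or_eq_of_le hx with h | h
      · rw [sum_congr rfl fun j _ => by rw [nb_succ_of_lt g x j h, hFb], hFb]
        simp only [List.length_cons]
        rw [sum_const, card_univ, Fintype.card_fin, nsmul_eq_mul, pow_succ, ← m_mul_be hm]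
        ring
      · exact hout h fun j => by rw [hL]; simp
    left
    rw [hsum, nb_zero, hFb, hFb]
    obtain ⟨x, hx'⟩ := x
    rcases x with _ | ⟨j, x⟩
    · simp only [List.tail_nil, List.length_nil, pow_zero, mul_one]
      linarith [one_le_sqrt hm]
    · simp only [List.tail_cons, List.length_cons]
      have : be m ^ x.length = √(m : ℝ) * be m ^ (x.length + 1) := by
        rw [pow_succ]
        calc be m ^ x.length = be m ^ x.length * (be m * √(m : ℝ)) := by rw [be_mul hm, mul_one]
          _ = _ := by ring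
      rw [this]
      linarith
  · -- a ball which is entered at the leaf `l`
    obtain ⟨⟨l, hl⟩, j₀⟩ := i
    set c := Fl m R t l * be m with hc
    have hc0 : 0 < c := mul_pos (Fl_pos hm _ _) hbe
    have hFb : ∀ y : Ball m R, FF ((g, y) : Vt m R) = c * WW m R l y.1 := by
      intro y
      unfold FF
      rw [hL, Fl]
    by_cases hsuf : x.1 <:+ l
    · by_cases hlt : x.1.length < R
      · -- an ancestor of `l`
        have hch : ∑ j : Fin m, FF (nb (g, x) j.succ) = c * (UU m R (x.1.length + 1) +
            ((m : ℝ) - 1) * (UU m R x.1.length * be m)) := by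
          rw [← sum_children l x.1 hsuf (by omega), mul_sum]
          exact sum_congr rfl fun j _ => by rw [nb_succ_of_lt g x j hlt, hFb]
        left
        rw [hch, nb_zero, hFb, hFb, WW_suffix hsuf]
        obtain ⟨x, hx'⟩ := x
        have hU : UU m R (x.length + 1) = (uu m x.length)⁻¹ * UU m R x.length := by
          rw [UU_succ hlt, inv_mul_cancel_left₀ (uu_pos hm _).ne']
        rcases x with _ | ⟨j, x⟩
        · simp only [List.tail_nil, List.length_nil] at hU ⊢
          rw [WW_suffix List.nil_suffix, hU]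
          have h1 := scal_centre hm
          have h2 := UU_pos (R := R) hm 0
          simp only [List.length_nil]
          calc c * UU m R 0 + c * ((uu m 0)⁻¹ * UU m R 0 + ((m : ℝ) - 1) * (UU m R 0 * be m))
              = (1 + (uu m 0)⁻¹ + ((m : ℝ) - 1) * be m) * (c * UU m R 0) := by ring
            _ ≤ 2 * √(m : ℝ) * (c * UU m R 0) :=
                mul_le_mul_of_nonneg_right h1 (mul_pos hc0 h2).le
        · simp only [List.tail_cons, List.length_cons] at hU ⊢
          have hsuf' : x <:+ l := (List.suffix_cons j x).trans hsuf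
          have h2 := UU_pos (R := R) hm (x.length + 1)
          rw [WW_suffix hsuf', hU, UU_succ (k := x.length)
            (by rw [List.length_cons] at hx'; omega)]
          have h1 := scal_mid hm x.length
          calc c * (uu m x.length * UU m R (x.length + 1)) + c * ((uu m (x.length + 1))⁻¹ *
                UU m R (x.length + 1) + ((m : ℝ) - 1) * (UU m R (x.length + 1) * be m))
              = (uu m x.length + (uu m (x.length + 1))⁻¹ + ((m : ℝ) - 1) * be m) *
                (c * UU m R (x.length + 1)) := by ring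
            _ ≤ 2 * √(m : ℝ) * (c * UU m R (x.length + 1)) :=
                mul_le_mul_of_nonneg_right h1 (mul_pos hc0 h2).le
      · -- the leaf `l`
        have hxR : x.1.length = R := by omega
        have hxl : x.1 = l := hsuf.eq_of_length (by omega)
        obtain ⟨x, hx'⟩ := x
        simp only at hxl hxR
        subst hxl
        right
        have hFx : FF ((g, ⟨x, hx'⟩) : Vt m R) = c := by
          rw [hFb, WW_suffix (List.suffix_refl _), hxR, UU_self, mul_one]
        have hback : FF (nb ((g, ⟨x, hx'⟩) : Vt m R) j₀.succ) = √(m : ℝ) * c := by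
          rw [nb_succ_of_eq g ⟨x, hx'⟩ j₀ hxR]
          have := FF_back (x := ⟨x, hx'⟩) hxR j₀ t hL
          rw [hFx] at this
          rw [this]
          calc FF ((sg (⟨x, hxR⟩, j₀) * g, ⟨x, hx'⟩) : Vt m R)
              = FF ((sg (⟨x, hxR⟩, j₀) * g, ⟨x, hx'⟩) : Vt m R) * (be m * √(m : ℝ)) := by
                rw [be_mul hm, mul_one]
            _ = _ := by ring
        have hothers : ∀ j ∈ univ.erase j₀, FF (nb ((g, ⟨x, hx'⟩) : Vt m R) j.succ) =
            c * be m := by
          intro j hj
          rw [nb_succ_of_eq g ⟨x, hx'⟩ j hxR, FF_out (x := ⟨x, hx'⟩) hxR j, hFx]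
          rw [hL]
          simp only [List.head?_cons, ne_eq, Option.some.injEq, Prod.mk.injEq, true_and]
          exact fun h => (ne_of_mem_erase hj) h.symm
        rw [← add_sum_erase univ _ (mem_univ j₀), hback, sum_congr rfl hothers, sum_const,
          card_erase_of_mem (mem_univ j₀), card_univ, Fintype.card_fin, nsmul_eq_mul, nb_zero, hFx]
        rcases x with _ | ⟨j, x⟩
        · simp at hxR; omega
        · rw [hFb]
          simp only [List.tail_cons]
          have hxl : x.length + 1 = R := by rw [← hxR, List.length_cons]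
          rw [WW_suffix (List.suffix_cons j x), UU_succ (show x.length < R by omega), hxl, UU_self,
            mul_one]
          have h1 : ((m - 1 : ℕ) : ℝ) = (m : ℝ) - 1 := by
            push_cast [Nat.cast_sub (show 1 ≤ m by omega)]; ring
          rw [h1]
          unfold lam uu
          rw [show R - 1 = x.length by omega]
          have h2 := m_mul_be hm
          apply le_of_eq
          have h3 : ((m : ℝ) - 1) * (c * be m) = c * (√(m : ℝ) - be m) := by rw [← h2]; ring
          rw [h3]
          ring
    · -- not an ancestor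
      obtain ⟨x, hx'⟩ := x
      simp only at hsuf hout
      rcases x with _ | ⟨j, x⟩
      · exact absurd List.nil_suffix hsuf
      · have hW : WW m R l (j :: x) = WW m R l x * be m := WW_not hsuf
        have hsum : ∑ k : Fin m, FF (nb ((g, ⟨j :: x, hx'⟩) : Vt m R) k.succ) =
            √(m : ℝ) * FF ((g, ⟨j :: x, hx'⟩) : Vt m R) := by
          rcases lt_or_eq_of_le hx' with h | h
          · have h1 : ∀ k : Fin m, FF (nb ((g, ⟨j :: x, hx'⟩) : Vt m R) k.succ) =
                c * WW m R l (j :: x) * be m := by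
              intro k
              rw [nb_succ_of_lt g ⟨j :: x, hx'⟩ k h, hFb]
              simp only
              rw [WW_not fun h' => hsuf ((List.suffix_cons k (j :: x)).trans h')]
              ring
            rw [sum_congr rfl fun k _ => h1 k, sum_const, card_univ, Fintype.card_fin,
              nsmul_eq_mul, hFb, ← m_mul_be hm]
            ring
          · refine hout h fun k => ?_
            rw [hL]
            simp only [List.head?_cons, ne_eq, Option.some.injEq, Prod.mk.injEq, not_and]
            intro h1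
            have h2 : l = j :: x := congrArg Subtype.val h1
            exact absurd (h2.symm ▸ List.suffix_refl _ : (j :: x) <:+ l) hsuf
        left
        rw [hsum, nb_zero, hFb, hFb]
        simp only [List.tail_cons]
        rw [hW]
        have h1 : c * WW m R l x = √(m : ℝ) * (c * (WW m R l x * be m)) := by
          calc c * WW m R l x = c * WW m R l x * (be m * √(m : ℝ)) := by rw [be_mul hm, mul_one]
            _ = _ := by ring
        rw [h1]
        linarith

end Function

end Pool.Agent.R766.UG
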