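import Pool.Agent.R766.UG.Graph
import Pool.Agent.R766.UG.Group

/-!
The tree of balls: copies of the ball of radius `R` in the `m`-ary tree, with a loop at the centre,
joined at the leaves along the Cayley graph of a free product of groups of order two.
-/

set_option autoImplicit false

open MeasureTheory Filter Topology Finset
open scoped ENNReal

namespace Pool.Agent.R766.UG

section Tree

variable (m R : ℕ)

/-- The ball of radius `R`; the children of `x` are `j :: x`. -/
abbrev Ball : Type := {x : List (Fin m) // x.length ≤ R}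

/-- The external half-edges of the ball. -/
abbrev Idx : Type := {x : List (Fin m) // x.length = R} × Fin m

/-- The vertices. -/
abbrev Vt : Type := Gam (Idx m R) × Ball m R

variable {m R}

/-- The neighbour at a port. -/
def nb (v : Vt m R) (k : Fin (m + 1)) : Vt m R :=
  Fin.cases (v.1, ⟨v.2.1.tail, by rw [List.length_tail]; have := v.2.2; omega⟩)
    (fun j => if h : v.2.1.length < R then (v.1, ⟨j :: v.2.1, h⟩) else
      (sg (⟨v.2.1, le_antisymm v.2.2 (not_lt.1 h)⟩, j) * v.1, v.2)) k

theorem nb_zero (g : Gam (Idx m R)) (x : Ball m R) :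
    nb (g, x) 0 = (g, ⟨x.1.tail, by rw [List.length_tail]; have := x.2; omega⟩) := rfl

theorem nb_succ_of_lt (g : Gam (Idx m R)) (x : Ball m R) (j : Fin m) (h : x.1.length < R) :
    nb (g, x) j.succ = (g, ⟨j :: x.1, h⟩) := by
  unfold nb
  rw [Fin.cases_succ]
  exact dif_pos h

theorem nb_succ_of_eq (g : Gam (Idx m R)) (x : Ball m R) (j : Fin m) (h : x.1.length = R) :
    nb (g, x) j.succ = (sg (⟨x.1, h⟩, j) * g, x) := by
  unfold nb
  rw [Fin.cases_succ]
  exact dif_neg (by show ¬ x.1.length < R; omega)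

/-- The port of a vertex that leads to its parent, seen from the parent. -/
def up : List (Fin m) → Fin (m + 1)
  | [] => 0
  | j :: _ => j.succ

/-- The reverse port. -/
def rev (v : Vt m R) (k : Fin (m + 1)) : Fin (m + 1) :=
  Fin.cases (up v.2.1) (fun j => if v.2.1.length < R then 0 else j.succ) k

theorem rev_zero (g : Gam (Idx m R)) (x : Ball m R) : rev (g, x) 0 = up x.1 := rfl

theorem rev_succ_of_lt (g : Gam (Idx m R)) (x : Ball m R) (j : Fin m) (h : x.1.length < R) :
    rev (g, x) j.succ = 0 := by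
  unfold rev
  rw [Fin.cases_succ]
  exact if_pos h

theorem rev_succ_of_eq (g : Gam (Idx m R)) (x : Ball m R) (j : Fin m) (h : x.1.length = R) :
    rev (g, x) j.succ = j.succ := by
  unfold rev
  rw [Fin.cases_succ]
  exact if_neg (by show ¬ x.1.length < R; omega)

theorem nb_rev (v : Vt m R) (k : Fin (m + 1)) :
    nb (nb v k) (rev v k) = v ∧ rev (nb v k) (rev v k) = k := by
  obtain ⟨g, x, hx⟩ := v
  rcases Fin.eq_zero_or_eq_succ k with rfl | ⟨j, rfl⟩
  · rcases x with _ | ⟨i, x⟩
    · exact ⟨rfl, rfl⟩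
    · have h : x.length < R := by simpa using hx
      rw [nb_zero, rev_zero]
      show nb (g, ⟨x, _⟩) i.succ = _ ∧ rev (g, ⟨x, _⟩) i.succ = 0
      rw [nb_succ_of_lt g ⟨x, h.le⟩ i h, rev_succ_of_lt g ⟨x, h.le⟩ i h]
      exact ⟨rfl, rfl⟩
  · by_cases h : x.length < R
    · rw [nb_succ_of_lt g ⟨x, hx⟩ j h, rev_succ_of_lt g ⟨x, hx⟩ j h]
      exact ⟨rfl, rfl⟩
    · have h' : x.length = R := by omega
      rw [nb_succ_of_eq g ⟨x, hx⟩ j h', rev_succ_of_eq g ⟨x, hx⟩ j h',
        nb_succ_of_eq _ ⟨x, hx⟩ j h', rev_succ_of_eq _ ⟨x, hx⟩ j h', sg_mul_sg_mul]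
      exact ⟨rfl, rfl⟩

/-- The matrix of multiplicities. -/
noncomputable def adj (m R : ℕ) : Vt m R → Vt m R → ℕ := mult nb

theorem adj_symm (v w : Vt m R) : adj m R v w = adj m R w v :=
  mult_symm nb rev (fun v k => (nb_rev v k).1) (fun v k => (nb_rev v k).2) v w

theorem adj_regular (v : Vt m R) : ∑' w, (adj m R v w : ℝ≥0∞) = (m + 1 : ℕ) := by
  have h := tsum_mult nb (fun _ => 1) v
  simp only [mul_one, sum_const, card_univ, Fintype.card_fin, nsmul_eq_mul] at h
  exact h

/-- Reachability. -/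
def Reach (v w : Vt m R) : Prop := Relation.ReflTransGen (fun u v => 0 < adj m R u v) v w

theorem reach_nb (v : Vt m R) (k : Fin (m + 1)) : Reach v (nb v k) :=
  Relation.ReflTransGen.single (mult_pos nb rfl)

theorem reach_symm {v w : Vt m R} (h : Reach v w) : Reach w v := by
  induction h with
  | refl => exact Relation.ReflTransGen.refl
  | tail _ h1 h2 =>
    refine Relation.ReflTransGen.head ?_ h2
    rw [adj_symm]
    exact h1

theorem reach_centre (g : Gam (Idx m R)) (x : List (Fin m)) (hx : x.length ≤ R) :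
    Reach ((g, ⟨x, hx⟩) : Vt m R) (g, ⟨[], Nat.zero_le _⟩) := by
  induction x with
  | nil => exact Relation.ReflTransGen.refl
  | cons j x ih =>
    have h : x.length ≤ R := by rw [List.length_cons] at hx; omega
    have h1 := reach_nb ((g, ⟨j :: x, hx⟩) : Vt m R) 0
    rw [nb_zero] at h1
    exact h1.trans (ih h)

theorem reach_one (g : Gam (Idx m R)) :
    Reach ((g, ⟨[], Nat.zero_le _⟩) : Vt m R) (1, ⟨[], Nat.zero_le _⟩) := by
  induction g using gam_induction with
  | h1 => exact Relation.ReflTransGen.refl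
  | h2 i g ih =>
    refine Relation.ReflTransGen.trans ?_ ih
    obtain ⟨⟨x, hx⟩, j⟩ := i
    have h1 := reach_symm (reach_centre g x hx.le)
    have h2 := reach_nb ((g, ⟨x, hx.le⟩) : Vt m R) j.succ
    rw [nb_succ_of_eq g ⟨x, hx.le⟩ j hx] at h2
    exact reach_symm ((h1.trans h2).trans (reach_centre _ x hx.le))

theorem adj_connected (v w : Vt m R) : Reach v w := by
  obtain ⟨g, x, hx⟩ := v
  obtain ⟨h, y, hy⟩ := w
  exact ((reach_centre g x hx).trans (reach_one g)).trans
    (reach_symm ((reach_centre h y hy).trans (reach_one h)))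

theorem adj_graph : IsRegularGraph (m + 1) (adj m R) :=
  ⟨adj_symm, adj_regular, adj_connected⟩

/-- The loop at a centre. -/
theorem adj_loop (g : Gam (Idx m R)) :
    1 ≤ adj m R (g, ⟨[], Nat.zero_le _⟩) (g, ⟨[], Nat.zero_le _⟩) :=
  mult_pos nb (k := 0) rfl

/-- Right multiplication is an automorphism. -/
def shift (h : Gam (Idx m R)) : Equiv.Perm (Vt m R) where
  toFun v := (v.1 * h, v.2)
  invFun v := (v.1 * h⁻¹, v.2)
  left_inv v := by simp
  right_inv v := by simp

theorem nb_shift (h : Gam (Idx m R)) (v : Vt m R) (k : Fin (m + 1)) :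
    nb (shift h v) k = shift h (nb v k) := by
  obtain ⟨g, x, hx⟩ := v
  show nb (g * h, ⟨x, hx⟩) k = _
  rcases Fin.eq_zero_or_eq_succ k with rfl | ⟨j, rfl⟩
  · rfl
  · by_cases h1 : x.length < R
    · rw [nb_succ_of_lt _ ⟨x, hx⟩ j h1, nb_succ_of_lt _ ⟨x, hx⟩ j h1]
      rfl
    · have h' : x.length = R := by omega
      rw [nb_succ_of_eq _ ⟨x, hx⟩ j h', nb_succ_of_eq _ ⟨x, hx⟩ j h', ← mul_assoc]
      rfl

theorem adj_shift (h : Gam (Idx m R)) (v w : Vt m R) :
    adj m R (shift h v) (shift h w) = adj m R v w := by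
  classical
  unfold adj mult
  congr 1
  ext k
  simp only [mem_filter, mem_univ, true_and]
  rw [nb_shift]
  exact (shift h).apply_eq_iff_eq

noncomputable instance : Fintype (Ball m R) := (List.finite_length_le (Fin m) R).fintype

instance : Nonempty (Ball m R) := ⟨⟨[], Nat.zero_le _⟩⟩

/-- The mass transport principle. -/
theorem mtp (f : Vt m R → Vt m R → ℝ≥0∞) (hf : ∀ h v w, f (shift h v) (shift h w) = f v w) :
    ∑ x : Ball m R, ∑' v, f (1, x) v = ∑ x : Ball m R, ∑' v, f v (1, x) := by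
  have h1 : ∀ x : Ball m R, ∑' v, f (1, x) v =
      ∑ y : Ball m R, ∑' g : Gam (Idx m R), f (1, x) (g, y) := by
    intro x
    rw [ENNReal.tsum_prod', ENNReal.tsum_comm, tsum_fintype]
  have h2 : ∀ x : Ball m R, ∑' v, f v (1, x) =
      ∑ y : Ball m R, ∑' g : Gam (Idx m R), f (g, y) (1, x) := by
    intro x
    rw [ENNReal.tsum_prod', ENNReal.tsum_comm, tsum_fintype]
  simp only [h1, h2]
  rw [sum_comm]
  refine sum_congr rfl fun y _ => sum_congr rfl fun x _ => ?_
  rw [← (Equiv.inv (Gam (Idx m R))).tsum_eq]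
  refine tsum_congr fun g => ?_
  have := hf g⁻¹ (g, x) (1, y)
  show f (1, x) (g⁻¹, y) = f (g, x) (1, y)
  rw [← this]
  unfold shift
  simp

end Tree

end Pool.Agent.R766.UG
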